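import Mathlib

set_option autoImplicit false

open Set Filter Topology Metric

namespace Pool.Agent.Q96.PN

variable {k : ℕ} {X : Type} [NormedAddCommGroup X] [NormedSpace ℂ X]
  {K : Type} [TopologicalSpace K] [CompactSpace K] [T2Space K]

/-- The real parts of the states at `g` are attained at points. -/
lemma exists_point [Nonempty K] (g h : C(K, X)) (F : C(K, X) →L[ℂ] ℂ) (hg : ‖g‖ = 1)
    (hF : ‖F‖ = 1) (hFg : F g = 1) :
    ∃ (t : K) (f : X →L[ℂ] ℂ), ‖g t‖ = 1 ∧ ‖f‖ = 1 ∧ f (g t) = 1 ∧ (F h).re ≤ (f (h t)).re := by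
  -- the compact space of point functionals
  set B : Set (WeakDual ℂ X) := WeakDual.toStrongDual ⁻¹' closedBall (0 : StrongDual ℂ X) 1 with hB
  have hBc : IsCompact B := WeakDual.isCompact_closedBall (𝕜 := ℂ) (E := X) 0 1
  have hBn : ∀ f ∈ B, ∀ x : X, ‖f x‖ ≤ ‖x‖ := by
    intro f hf x
    have h1 : ‖WeakDual.toStrongDual f‖ ≤ 1 := by
      rw [hB, mem_preimage, mem_closedBall_zero_iff] at hf
      exact hf
    calc ‖f x‖ = ‖(WeakDual.toStrongDual f) x‖ := rfl
      _ ≤ ‖WeakDual.toStrongDual f‖ * ‖x‖ := (WeakDual.toStrongDual f).le_opNorm x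
      _ ≤ 1 * ‖x‖ := mul_le_mul_of_nonneg_right h1 (norm_nonneg _)
      _ = ‖x‖ := one_mul _
  -- joint continuity
  have hcont : ∀ q : C(K, X), ContinuousOn (fun p : WeakDual ℂ X × K => p.1 (q p.2)) (B ×ˢ univ) := by
    intro q p hp
    rw [ContinuousWithinAt, Metric.tendsto_nhds]
    intro ε hε
    have h1 : ∀ᶠ p' : WeakDual ℂ X × K in 𝓝 p, ‖q p'.2 - q p.2‖ < ε / 2 := by
      have : Tendsto (fun p' : WeakDual ℂ X × K => ‖q p'.2 - q p.2‖) (𝓝 p) (𝓝 ‖q p.2 - q p.2‖) := by
        apply Continuous.tendsto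
        fun_prop
      rw [sub_self, norm_zero] at this
      exact this.eventually (gt_mem_nhds (by positivity))
    have h2 : ∀ᶠ p' : WeakDual ℂ X × K in 𝓝 p, ‖p'.1 (q p.2) - p.1 (q p.2)‖ < ε / 2 := by
      have h3 : Continuous fun f : WeakDual ℂ X => f (q p.2) := WeakDual.eval_continuous _
      have : Tendsto (fun p' : WeakDual ℂ X × K => ‖p'.1 (q p.2) - p.1 (q p.2)‖) (𝓝 p)
          (𝓝 ‖p.1 (q p.2) - p.1 (q p.2)‖) := by
        apply Continuous.tendsto
        exact ((h3.comp continuous_fst).sub continuous_const).norm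
      rw [sub_self, norm_zero] at this
      exact this.eventually (gt_mem_nhds (by positivity))
    filter_upwards [mem_nhdsWithin_of_mem_nhds h1, mem_nhdsWithin_of_mem_nhds h2,
      self_mem_nhdsWithin] with p' a1 a2 a3
    rw [dist_eq_norm]
    have e1 : p'.1 (q p'.2) - p.1 (q p.2) = p'.1 (q p'.2 - q p.2) + (p'.1 (q p.2) - p.1 (q p.2)) := by
      rw [map_sub]; ring
    rw [e1]
    calc _ ≤ ‖p'.1 (q p'.2 - q p.2)‖ + ‖p'.1 (q p.2) - p.1 (q p.2)‖ := norm_add_le _ _
      _ ≤ ‖q p'.2 - q p.2‖ + ‖p'.1 (q p.2) - p.1 (q p.2)‖ := by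
        gcongr
        exact hBn _ (mem_prod.1 a3).1 _
      _ < ε := by linarith
  have hprod : IsCompact (B ×ˢ (univ : Set K)) := hBc.prod isCompact_univ
  -- the nested sets
  let α : ℕ → ℝ := fun n => 1 / ((n : ℝ) + 1)
  have hα : ∀ n, 0 < α n := fun n => by positivity
  let S : ℕ → Set (WeakDual ℂ X × K) := fun n =>
    (B ×ˢ univ) ∩ {p | 1 - 2 * α n * ‖h‖ ≤ (p.1 (g p.2)).re ∧ (F h).re ≤ (p.1 (h p.2)).re}
  have hre : ∀ q : C(K, X), ContinuousOn (fun p : WeakDual ℂ X × K => (p.1 (q p.2)).re) (B ×ˢ univ) :=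
    fun q => Complex.continuous_re.comp_continuousOn (hcont q)
  have hScl : ∀ n, IsCompact (S n) := by
    intro n
    have h1 : S n = (B ×ˢ univ) ∩ ((fun p : WeakDual ℂ X × K => (p.1 (g p.2)).re) ⁻¹'
        (Ici (1 - 2 * α n * ‖h‖))) ∩ ((B ×ˢ univ) ∩ ((fun p : WeakDual ℂ X × K => (p.1 (h p.2)).re) ⁻¹'
        (Ici ((F h).re)))) := by
      ext p
      simp only [S, mem_inter_iff, mem_ofPred_eq, mem_preimage, mem_Ici]
      tauto
    rw [h1]
    have c1 := (hre g).preimage_isClosed_of_isClosed hprod.isClosed (isClosed_Ici (a := 1 - 2 * α n * ‖h‖))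
    have c2 := (hre h).preimage_isClosed_of_isClosed hprod.isClosed (isClosed_Ici (a := (F h).re))
    exact hprod.of_isClosed_subset (c1.inter c2) (fun p hp => hp.1.1)
  have hSne : ∀ n, (S n).Nonempty := by
    intro n
    -- a point where `g + α h` attains its norm
    obtain ⟨t, -, ht⟩ := isCompact_univ.exists_isMaxOn (univ_nonempty (α := K))
      ((g + (α n : ℂ) • h).continuous.norm.continuousOn)
    have htn : ‖g + (α n : ℂ) • h‖ ≤ ‖(g + (α n : ℂ) • h) t‖ :=
      (ContinuousMap.norm_le _ (norm_nonneg _)).2 fun s => ht (mem_univ s)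
    obtain ⟨f, hf1, hf2⟩ := exists_dual_vector'' ℂ ((g + (α n : ℂ) • h) t)
    have e1 : (f (g t)).re + α n * (f (h t)).re = ‖(g + (α n : ℂ) • h) t‖ := by
      have := congrArg Complex.re hf2
      simp only [ContinuousMap.add_apply, ContinuousMap.smul_apply, map_add, map_smul,
        smul_eq_mul, Complex.add_re, Complex.re_ofReal_mul] at this
      rw [this]
      simp
    have e2 : 1 + α n * (F h).re ≤ ‖g + (α n : ℂ) • h‖ := by
      have h1 := F.le_opNorm (g + (α n : ℂ) • h)
      rw [hF, one_mul] at h1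
      have h2 : (F (g + (α n : ℂ) • h)).re ≤ ‖F (g + (α n : ℂ) • h)‖ := Complex.re_le_norm _
      have h3 : (F (g + (α n : ℂ) • h)).re = 1 + α n * (F h).re := by
        rw [map_add, map_smul, hFg]
        simp
      linarith
    have hfb : ∀ x : X, ‖f x‖ ≤ ‖x‖ := fun x =>
      (f.le_opNorm x).trans (by nlinarith [norm_nonneg x])
    have e3 : (f (g t)).re ≤ 1 :=
      (Complex.re_le_norm _).trans ((hfb _).trans ((g.norm_coe_le_norm t).trans hg.le))
    have e4 : |(f (h t)).re| ≤ ‖h‖ :=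
      (Complex.abs_re_le_norm _).trans ((hfb _).trans (h.norm_coe_le_norm t))
    have e5 : |(F h).re| ≤ ‖h‖ := by
      refine (Complex.abs_re_le_norm _).trans ?_
      have := F.le_opNorm h
      rwa [hF, one_mul] at this
    have hαn := hα n
    refine ⟨(StrongDual.toWeakDual f, t), ⟨?_, mem_univ _⟩, ?_, ?_⟩
    · rw [hB, mem_preimage, mem_closedBall_zero_iff]
      exact hf1
    · show 1 - 2 * α n * ‖h‖ ≤ (f (g t)).re
      have h1 := (abs_le.1 e4).2
      have h2 := (abs_le.1 e5).1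
      nlinarith
    · show (F h).re ≤ (f (h t)).re
      have h1 : α n * (F h).re ≤ α n * (f (h t)).re := by linarith
      exact le_of_mul_le_mul_left h1 hαn
  have hSmono : ∀ n, S (n + 1) ⊆ S n := by
    rintro n p ⟨h1, h2, h3⟩
    refine ⟨h1, ?_, h3⟩
    refine le_trans ?_ h2
    have h4 : α (n + 1) ≤ α n := by
      show 1 / (((n + 1 : ℕ) : ℝ) + 1) ≤ 1 / ((n : ℝ) + 1)
      apply one_div_le_one_div_of_le (by positivity)
      push_cast; linarith
    have := mul_le_mul_of_nonneg_right h4 (norm_nonneg h)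
    nlinarith
  obtain ⟨⟨f, t⟩, hp⟩ := IsCompact.nonempty_iInter_of_sequence_nonempty_isCompact_isClosed S hSmono
    hSne (hScl 0) fun n => (hScl n).isClosed
  rw [mem_iInter] at hp
  have hfB : f ∈ B := (mem_prod.1 (hp 0).1).1
  have h1 : 1 ≤ (f (g t)).re := by
    have h2 : Tendsto (fun n => 1 - 2 * α n * ‖h‖) atTop (𝓝 (1 - 2 * 0 * ‖h‖)) := by
      have := tendsto_one_div_add_atTop_nhds_zero_nat (𝕜 := ℝ)
      exact (tendsto_const_nhds.sub ((this.const_mul 2).mul_const _))
    rw [mul_zero, zero_mul, sub_zero] at h2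
    exact le_of_tendsto h2 (Eventually.of_forall fun n => (hp n).2.1)
  have h2 : ‖f (g t)‖ ≤ 1 := (hBn f hfB _).trans ((g.norm_coe_le_norm t).trans hg.le)
  have h3 : f (g t) = 1 := by
    have h4 : (f (g t)).re = 1 := le_antisymm ((Complex.re_le_norm _).trans h2) h1
    have h5 : ‖f (g t)‖ ^ 2 = (f (g t)).re ^ 2 + (f (g t)).im ^ 2 := by
      rw [← Complex.normSq_eq_norm_sq, Complex.normSq_apply]; ring
    have h6 : (f (g t)).im = 0 := by
      have : ‖f (g t)‖ ^ 2 ≤ 1 := by nlinarith [norm_nonneg (f (g t))]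
      have h7 : (f (g t)).im ^ 2 ≤ 0 := by rw [h4] at h5; linarith
      exact pow_eq_zero_iff two_ne_zero |>.1 (le_antisymm h7 (sq_nonneg _))
    exact Complex.ext h4 h6
  have h4 : ‖g t‖ = 1 := by
    refine le_antisymm ((g.norm_coe_le_norm t).trans hg.le) ?_
    have := hBn f hfB (g t)
    rwa [h3, norm_one] at this
  refine ⟨t, WeakDual.toStrongDual f, h4, ?_, h3, (hp 0).2.2⟩
  refine le_antisymm ?_ ?_
  · have := hfB
    rw [hB, mem_preimage, mem_closedBall_zero_iff] at this
    exact this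
  · have h5 := (WeakDual.toStrongDual f).le_opNorm (g t)
    rw [h4, mul_one] at h5
    have h6 : (WeakDual.toStrongDual f) (g t) = 1 := h3
    rw [h6, norm_one] at h5
    exact h5

theorem backward [Nonempty K] (c : ℝ)
    (h : ∀ (A : ContinuousMultilinearMap ℂ (fun _ : Fin k => C(K, X)) C(K, X)) (y : C(K, X)),
      ‖y‖ ≤ 1 → ∀ ε : ℝ, 0 < ε →
        ∃ (x : C(K, X)) (f : C(K, X) →L[ℂ] ℂ), ‖x‖ = 1 ∧ ‖f‖ = 1 ∧ f x = 1 ∧
          c * ‖A (fun _ => y)‖ - ε < ‖f (A (fun _ => x))‖)
    (A : ContinuousMultilinearMap ℂ (fun _ : Fin k => X) X) (y : X) (hy : ‖y‖ ≤ 1)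
    (ε : ℝ) (hε : 0 < ε) :
    ∃ (x : X) (f : X →L[ℂ] ℂ), ‖x‖ = 1 ∧ ‖f‖ = 1 ∧ f x = 1 ∧
      c * ‖A (fun _ => y)‖ - ε < ‖f (A (fun _ => x))‖ := by
  -- the pointwise multilinear map
  let m : MultilinearMap ℂ (fun _ : Fin k => C(K, X)) C(K, X) :=
    { toFun := fun g => ⟨fun t => A fun i => g i t, by
        exact A.cont.comp (continuous_pi fun i => (g i).continuous)⟩
      map_update_add' := by
        intro _ g i a b
        ext t
        simp only [ContinuousMap.coe_mk, ContinuousMap.add_apply]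
        have e : ∀ z : C(K, X), (fun j => Function.update g i z j t) =
            Function.update (fun j => g j t) i (z t) := by
          intro z
          funext j
          by_cases hj : j = i
          · subst hj; simp
          · simp [Function.update_of_ne hj]
        rw [e, e, e, ContinuousMap.add_apply, A.map_update_add]
      map_update_smul' := by
        intro _ g i a b
        ext t
        simp only [ContinuousMap.coe_mk, ContinuousMap.smul_apply]
        have e : ∀ z : C(K, X), (fun j => Function.update g i z j t) =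
            Function.update (fun j => g j t) i (z t) := by
          intro z
          funext j
          by_cases hj : j = i
          · subst hj; simp
          · simp [Function.update_of_ne hj]
        rw [e, e, ContinuousMap.smul_apply, A.map_update_smul] }
  have hm : ∀ g : Fin k → C(K, X), ‖m g‖ ≤ ‖A‖ * ∏ i, ‖g i‖ := by
    intro g
    refine (ContinuousMap.norm_le _ (by positivity)).2 fun t => ?_
    show ‖A fun i => g i t‖ ≤ _
    refine (A.le_opNorm _).trans ?_
    gcongr with i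
    exact (g i).norm_coe_le_norm t
  let M : ContinuousMultilinearMap ℂ (fun _ : Fin k => C(K, X)) C(K, X) := m.mkContinuous ‖A‖ hm
  have hM : ∀ (g : C(K, X)) (t : K), (M fun _ => g) t = A fun _ => g t := fun g t => rfl
  obtain ⟨t₁⟩ := ‹Nonempty K›
  have hyn : ‖ContinuousMap.const K y‖ ≤ 1 :=
    (ContinuousMap.norm_le _ zero_le_one).2 fun _ => hy
  obtain ⟨g, F, hg, hF, hFg, hmain⟩ := h M (ContinuousMap.const K y) hyn (max ε (ε + c * (‖M fun _ => ContinuousMap.const K y‖ - ‖A fun _ => y‖)))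
    (lt_max_of_lt_left hε)
  have hMy : ‖M fun _ => ContinuousMap.const K y‖ = ‖A fun _ => y‖ := by
    refine le_antisymm ((ContinuousMap.norm_le _ (norm_nonneg _)).2 fun t => ?_) ?_
    · rw [hM]; rfl
    · have := (M fun _ => ContinuousMap.const K y).norm_coe_le_norm t₁
      rw [hM] at this
      exact this
  rw [hMy, sub_self, mul_zero, add_zero, max_self] at hmain
  -- rotate
  obtain ⟨r, hr1, hr2⟩ : ∃ r : ℂ, ‖r‖ = 1 ∧ r * F (M fun _ => g) = ‖F (M fun _ => g)‖ := by
    by_cases h0 : F (M fun _ => g) = 0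
    · exact ⟨1, by simp, by rw [h0]; simp⟩
    · refine ⟨(‖F (M fun _ => g)‖ : ℂ) / F (M fun _ => g), ?_, div_mul_cancel₀ _ h0⟩
      rw [norm_div, Complex.norm_real, norm_norm, div_self (norm_ne_zero_iff.2 h0)]
  have : Nonempty K := ⟨t₁⟩
  obtain ⟨t, f, h1, h2, h3, h4⟩ := exists_point g (r • M fun _ => g) F hg hF hFg
  refine ⟨g t, f, h1, h2, h3, lt_of_lt_of_le hmain ?_⟩
  rw [map_smul, smul_eq_mul, hr2, Complex.ofReal_re] at h4
  refine h4.trans ((Complex.re_le_norm _).trans ?_)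
  rw [ContinuousMap.smul_apply, map_smul, norm_smul, hr1, one_mul, hM]

end Pool.Agent.Q96.PN
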