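import Mathlib

set_option autoImplicit false

open Set Filter Topology Metric

namespace Pool.Agent.Q96.PN

variable {k : ℕ} {X : Type} [NormedAddCommGroup X] [NormedSpace ℂ X]
  {K : Type} [TopologicalSpace K] [CompactSpace K]

/-- The map `x ↦ φ x + (1 - φ) f(x) y`. -/
lemma exists_L (φ : C(K, ℝ)) (hφ : ∀ t, φ t ∈ Icc (0 : ℝ) 1) (f : X →L[ℂ] ℂ) (hf : ‖f‖ ≤ 1)
    (y : C(K, X)) (hy : ‖y‖ ≤ 1) :
    ∃ L : X →L[ℂ] C(K, X), (∀ x, ‖L x‖ ≤ ‖x‖) ∧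
      ∀ x t, L x t = (φ t : ℂ) • x + ((1 - φ t : ℝ) : ℂ) • (f x • y t) := by
  let l : X →ₗ[ℂ] C(K, X) :=
    { toFun := fun x => ⟨fun t => (φ t : ℂ) • x + ((1 - φ t : ℝ) : ℂ) • (f x • y t), by fun_prop⟩
      map_add' := by
        intro a b
        ext t
        simp only [ContinuousMap.coe_mk, ContinuousMap.add_apply, map_add, smul_add, add_smul]
        abel
      map_smul' := by
        intro c a
        ext t
        simp only [ContinuousMap.coe_mk, ContinuousMap.smul_apply, map_smul, RingHom.id_apply,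
          smul_add, smul_eq_mul]
        rw [smul_comm (φ t : ℂ) c a, mul_smul, smul_comm ((1 - φ t : ℝ) : ℂ) c] }
  have hl : ∀ x, ‖l x‖ ≤ 1 * ‖x‖ := by
    intro x
    rw [one_mul]
    refine (ContinuousMap.norm_le _ (norm_nonneg x)).2 fun t => ?_
    show ‖(φ t : ℂ) • x + ((1 - φ t : ℝ) : ℂ) • (f x • y t)‖ ≤ ‖x‖
    obtain ⟨h0, h1⟩ := hφ t
    have e1 : ‖(φ t : ℂ) • x‖ = φ t * ‖x‖ := by
      rw [norm_smul, Complex.norm_real, Real.norm_of_nonneg h0]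
    have e2 : ‖((1 - φ t : ℝ) : ℂ) • (f x • y t)‖ ≤ (1 - φ t) * ‖x‖ := by
      rw [norm_smul, Complex.norm_real, Real.norm_of_nonneg (by linarith), norm_smul]
      refine mul_le_mul_of_nonneg_left ?_ (by linarith)
      calc ‖f x‖ * ‖y t‖ ≤ (1 * ‖x‖) * 1 := by
            refine mul_le_mul ?_ ((y.norm_coe_le_norm t).trans hy) (norm_nonneg _) (by positivity)
            exact (f.le_opNorm x).trans (mul_le_mul_of_nonneg_right hf (norm_nonneg _))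
        _ = ‖x‖ := by ring
    calc _ ≤ ‖(φ t : ℂ) • x‖ + ‖((1 - φ t : ℝ) : ℂ) • (f x • y t)‖ := norm_add_le _ _
      _ ≤ φ t * ‖x‖ + (1 - φ t) * ‖x‖ := by rw [e1]; linarith
      _ = ‖x‖ := by ring
  refine ⟨l.mkContinuous 1 hl, fun x => ?_, fun x t => rfl⟩
  have := hl x
  rw [one_mul] at this
  exact this

/-- Maximum modulus on a one dimensional section of the ball. -/
lemma exists_section {u w : X} (hu : ‖u‖ ≤ 1) (hw : w ≠ 0) {F : ℂ → X}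
    (hF : Differentiable ℂ F) : ∃ ζ : ℂ, ‖u + ζ • w‖ = 1 ∧ ‖F 0‖ ≤ ‖F ζ‖ := by
  rcases eq_or_lt_of_le hu with h | h
  · exact ⟨0, by simpa using h, le_rfl⟩
  set D : Set ℂ := {ζ : ℂ | ‖u + ζ • w‖ < 1} with hD
  have hw' : 0 < ‖w‖ := norm_pos_iff.2 hw
  have hb : Bornology.IsBounded D := by
    refine (Metric.isBounded_iff_subset_closedBall (0 : ℂ)).2 ⟨2 / ‖w‖, fun ζ hζ => ?_⟩
    rw [mem_closedBall_zero_iff, le_div_iff₀ hw', ← norm_smul]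
    have h1 : ζ • w = (u + ζ • w) - u := by abel
    rw [h1]
    have h2 : ‖u + ζ • w‖ < 1 := hζ
    calc ‖(u + ζ • w) - u‖ ≤ ‖u + ζ • w‖ + ‖u‖ := norm_sub_le _ _
      _ ≤ 2 := by linarith
  have h0 : (0 : ℂ) ∈ D := by
    show ‖u + (0 : ℂ) • w‖ < 1
    simpa using h
  obtain ⟨z, hz, hmax⟩ := Complex.exists_mem_frontier_isMaxOn_norm hb ⟨0, h0⟩
    (hF.diffContOnCl)
  refine ⟨z, ?_, hmax (subset_closure h0)⟩
  have hc : Continuous fun ζ : ℂ => ‖u + ζ • w‖ := by fun_prop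
  exact frontier_lt_subset_eq hc continuous_const hz

/-- Multilinear maps are Lipschitz on bounded sets. -/
lemma lip (A : ContinuousMultilinearMap ℂ (fun _ : Fin k => C(K, X)) C(K, X)) :
    ∃ C : ℝ, 0 < C ∧ ∀ g h : C(K, X), ‖g‖ ≤ 2 → ‖h‖ ≤ 2 →
      ‖A (fun _ => g) - A (fun _ => h)‖ ≤ C * ‖g - h‖ := by
  refine ⟨‖A‖ * k * 2 ^ (k - 1) + 1, by positivity, fun g h hg hh => ?_⟩
  have h1 := A.norm_image_sub_le (fun _ => g) (fun _ => h)
  rw [Fintype.card_fin] at h1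
  have h2 : max ‖fun _ : Fin k => g‖ ‖fun _ : Fin k => h‖ ≤ 2 := by
    refine max_le ?_ ?_
    · exact (pi_norm_le_iff_of_nonneg (by norm_num)).2 fun _ => hg
    · exact (pi_norm_le_iff_of_nonneg (by norm_num)).2 fun _ => hh
  have h3 : ‖(fun _ : Fin k => g) - fun _ : Fin k => h‖ ≤ ‖g - h‖ :=
    (pi_norm_le_iff_of_nonneg (norm_nonneg _)).2 fun _ => le_rfl
  refine h1.trans ?_
  have h4 : max ‖fun _ : Fin k => g‖ ‖fun _ : Fin k => h‖ ^ (k - 1) ≤ 2 ^ (k - 1) :=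
    pow_le_pow_left₀ (le_max_of_le_left (norm_nonneg _)) h2 _
  calc ‖A‖ * k * max ‖fun _ : Fin k => g‖ ‖fun _ : Fin k => h‖ ^ (k - 1) *
        ‖(fun _ : Fin k => g) - fun _ : Fin k => h‖
      ≤ ‖A‖ * k * 2 ^ (k - 1) * ‖g - h‖ := by gcongr
    _ ≤ _ := by
      have := norm_nonneg (g - h)
      nlinarith

omit [NormedSpace ℂ X] in
lemma exists_max [Nonempty K] (g : C(K, X)) : ∃ t, ‖g t‖ = ‖g‖ := by
  obtain ⟨t, -, ht⟩ := isCompact_univ.exists_isMaxOn (univ_nonempty (α := K))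
    (g.continuous.norm.continuousOn)
  refine ⟨t, le_antisymm (g.norm_coe_le_norm t) ?_⟩
  exact (ContinuousMap.norm_le _ (norm_nonneg _)).2 fun s => ht (mem_univ s)

theorem forward [T2Space K] [Nonempty K] [Nontrivial X] (c : ℝ)
    (h : ∀ (A : ContinuousMultilinearMap ℂ (fun _ : Fin k => X) X) (y : X), ‖y‖ ≤ 1 →
      ∀ ε : ℝ, 0 < ε →
        ∃ (x : X) (f : X →L[ℂ] ℂ), ‖x‖ = 1 ∧ ‖f‖ = 1 ∧ f x = 1 ∧
          c * ‖A (fun _ => y)‖ - ε < ‖f (A (fun _ => x))‖)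
    (A : ContinuousMultilinearMap ℂ (fun _ : Fin k => C(K, X)) C(K, X)) (y : C(K, X))
    (hy : ‖y‖ ≤ 1) (ε : ℝ) (hε : 0 < ε) :
    ∃ (x : C(K, X)) (f : C(K, X) →L[ℂ] ℂ), ‖x‖ = 1 ∧ ‖f‖ = 1 ∧ f x = 1 ∧
      c * ‖A (fun _ => y)‖ - ε < ‖f (A (fun _ => x))‖ := by
  -- the pull back of a pair
  have pull : ∀ (t₀ : K) (L : X →L[ℂ] C(K, X)), (∀ x, ‖L x‖ ≤ ‖x‖) → (∀ x, L x t₀ = x) →
      ∀ (x : X) (f : X →L[ℂ] ℂ), ‖x‖ = 1 → ‖f‖ = 1 → f x = 1 →
      ‖L x‖ = 1 ∧ ‖f.comp (ContinuousMap.evalCLM ℂ t₀ : C(K, X) →L[ℂ] X)‖ = 1 ∧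
        (f.comp (ContinuousMap.evalCLM ℂ t₀ : C(K, X) →L[ℂ] X)) (L x) = 1 := by
    intro t₀ L hL1 hL2 x f hx hf hfx
    have e1 : ‖L x‖ = 1 := by
      refine le_antisymm ((hL1 x).trans hx.le) ?_
      calc (1 : ℝ) = ‖L x t₀‖ := by rw [hL2, hx]
        _ ≤ ‖L x‖ := (L x).norm_coe_le_norm t₀
    have e3 : (f.comp (ContinuousMap.evalCLM ℂ t₀ : C(K, X) →L[ℂ] X)) (L x) = 1 := by
      show f (L x t₀) = 1
      rw [hL2, hfx]
    refine ⟨e1, le_antisymm ?_ ?_, e3⟩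
    · refine ContinuousLinearMap.opNorm_le_bound _ zero_le_one fun g => ?_
      show ‖f (g t₀)‖ ≤ 1 * ‖g‖
      calc ‖f (g t₀)‖ ≤ ‖f‖ * ‖g t₀‖ := f.le_opNorm _
        _ ≤ 1 * ‖g‖ := by rw [hf]; exact mul_le_mul_of_nonneg_left (g.norm_coe_le_norm t₀) zero_le_one
    · have h1 := (f.comp (ContinuousMap.evalCLM ℂ t₀ : C(K, X) →L[ℂ] X)).le_opNorm (L x)
      rw [e3, e1, mul_one, norm_one] at h1
      exact h1
  obtain ⟨t₀, ht₀⟩ := exists_max (A fun _ => y)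
  obtain ⟨w, hw⟩ := exists_ne (0 : X)
  rcases lt_or_ge c 0 with hc | hc
  · -- trivial case
    obtain ⟨x, f, hx, hf, hfx, -⟩ := h 0 0 (by simp) 1 one_pos
    obtain ⟨L, hL1, hL2⟩ := exists_L (1 : C(K, ℝ)) (fun t => by simp) (0 : X →L[ℂ] ℂ) (by simp)
      (0 : C(K, X)) (by simp)
    obtain ⟨e1, e2, e3⟩ := pull t₀ L hL1 (fun x => by rw [hL2]; simp) x f hx hf hfx
    refine ⟨_, _, e1, e2, e3, ?_⟩
    have h1 : c * ‖A (fun _ => y)‖ ≤ 0 := mul_nonpos_of_nonpos_of_nonneg hc.le (norm_nonneg _)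
    have h2 := norm_nonneg ((f.comp (ContinuousMap.evalCLM ℂ t₀ : C(K, X) →L[ℂ] X))
      (A (fun _ => L x)))
    linarith
  obtain ⟨C, hC, hlip⟩ := lip A
  -- the size of the neighbourhood
  obtain ⟨δ, hδ, hδ1, hδ2⟩ : ∃ δ : ℝ, 0 < δ ∧ δ ≤ 1 ∧ c * (C * δ) ≤ ε / 2 := by
    refine ⟨min 1 (ε / (2 * (c + 1) * C)), lt_min one_pos (by positivity), min_le_left _ _, ?_⟩
    have h1 : min 1 (ε / (2 * (c + 1) * C)) ≤ ε / (2 * (c + 1) * C) := min_le_right _ _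
    calc c * (C * min 1 (ε / (2 * (c + 1) * C))) ≤ (c + 1) * (C * (ε / (2 * (c + 1) * C))) := by
          gcongr; linarith
      _ = ε / 2 := by field_simp
  set u := y t₀ with hu
  have hu1 : ‖u‖ ≤ 1 := (y.norm_coe_le_norm t₀).trans hy
  obtain ⟨φ, hφ0, hφ1, hφ⟩ := exists_continuous_zero_one_of_isClosed
    (s := {t : K | δ ≤ ‖y t - u‖}) (t := {t₀}) (isClosed_le continuous_const (by fun_prop))
    isClosed_singleton (by
      rw [Set.disjoint_singleton_right]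
      intro h1
      have h2 : δ ≤ ‖y t₀ - u‖ := h1
      rw [← hu, sub_self, norm_zero] at h2
      linarith)
  have hφt₀ : φ t₀ = 1 := hφ1 rfl
  have hnear : ∀ t, φ t * ‖y t - u‖ ≤ δ := by
    intro t
    by_cases h1 : δ ≤ ‖y t - u‖
    · have h2 : φ t = 0 := hφ0 h1
      rw [h2, zero_mul]; exact hδ.le
    · push Not at h1
      calc φ t * ‖y t - u‖ ≤ 1 * δ := mul_le_mul (hφ t).2 h1.le (norm_nonneg _) zero_le_one
        _ = δ := one_mul _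
  -- the direction of perturbation
  let v : C(K, X) := ⟨fun t => (φ t : ℂ) • w, by fun_prop⟩
  let F : ℂ → X := fun ζ => (A fun _ => y + ζ • v) t₀
  have hF : Differentiable ℂ F := by
    have h1 : Differentiable ℂ fun ζ : ℂ => (fun _ : Fin k => y + ζ • v) := by
      rw [differentiable_pi]
      intro i
      exact (differentiable_const _).add (differentiable_id.smul_const v)
    have h2 : Differentiable ℂ fun m : Fin k → C(K, X) => A m := by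
      intro m
      exact (A.hasFDerivAt m).differentiableAt
    have h3 : Differentiable ℂ fun ζ : ℂ => A (fun _ : Fin k => y + ζ • v) := h2.comp h1
    exact (ContinuousMap.evalCLM ℂ t₀ : C(K, X) →L[ℂ] X).differentiable.comp h3
  obtain ⟨ζ, hζ1, hζ2⟩ := exists_section hu1 hw hF
  set x₀ := u + ζ • w with hx₀
  obtain ⟨f₀, hf₀, hf₀x⟩ := exists_dual_vector ℂ x₀ (by
    intro h0
    rw [h0] at hζ1
    exact zero_ne_one hζ1)
  rw [hζ1] at hf₀x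
  have hf₀x' : f₀ x₀ = 1 := by rw [hf₀x]; simp
  obtain ⟨L, hL1, hL2⟩ := exists_L φ hφ f₀ hf₀.le y hy
  have hLt : ∀ x, L x t₀ = x := by
    intro x
    rw [hL2, hφt₀]; simp
  -- closeness
  have hclose : ‖L x₀ - (y + ζ • v)‖ ≤ δ := by
    refine (ContinuousMap.norm_le _ hδ.le).2 fun t => ?_
    have e1 : (L x₀ - (y + ζ • v)) t = -((φ t : ℂ) • (y t - u)) := by
      show L x₀ t - (y t + ζ • ((φ t : ℂ) • w)) = _
      rw [hL2, hf₀x', hx₀]
      simp only [one_smul, smul_add, smul_sub, Complex.ofReal_sub, Complex.ofReal_one, sub_smul]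
      rw [smul_comm ζ]
      abel
    rw [e1, norm_neg, norm_smul, Complex.norm_real, Real.norm_of_nonneg (hφ t).1]
    exact hnear t
  have hLx₀ : ‖L x₀‖ ≤ 1 := (hL1 x₀).trans hζ1.le
  have hyv : ‖y + ζ • v‖ ≤ 2 := by
    have e1 : y + ζ • v = L x₀ - (L x₀ - (y + ζ • v)) := by abel
    rw [e1]
    calc _ ≤ ‖L x₀‖ + ‖L x₀ - (y + ζ • v)‖ := norm_sub_le _ _
      _ ≤ 2 := by linarith
  -- the polynomial on `X`
  let Q : ContinuousMultilinearMap ℂ (fun _ : Fin k => X) X :=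
    (ContinuousMap.evalCLM ℂ t₀ : C(K, X) →L[ℂ] X).compContinuousMultilinearMap
      (A.compContinuousLinearMap fun _ => L)
  have hQ : ∀ x, Q (fun _ => x) = (A fun _ => L x) t₀ := fun x => rfl
  have hQ₀ : ‖A fun _ => y‖ - C * δ ≤ ‖Q fun _ => x₀‖ := by
    have h1 : ‖F 0‖ = ‖A fun _ => y‖ := by
      show ‖(A fun _ => y + (0 : ℂ) • v) t₀‖ = _
      rw [zero_smul, add_zero, ht₀]
    have h2 := hlip (L x₀) (y + ζ • v) (by linarith) hyv
    have h3 : ‖F ζ - Q fun _ => x₀‖ ≤ C * δ := by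
      rw [hQ]
      have e1 : F ζ - (A fun _ => L x₀) t₀ = -(((A fun _ => L x₀) - A fun _ => y + ζ • v) t₀) := by
        show (A fun _ => y + ζ • v) t₀ - (A fun _ => L x₀) t₀ =
          -((A fun _ => L x₀) t₀ - (A fun _ => y + ζ • v) t₀)
        abel
      rw [e1, norm_neg]
      calc _ ≤ ‖(A fun _ => L x₀) - A fun _ => y + ζ • v‖ := ContinuousMap.norm_coe_le_norm _ t₀
        _ ≤ C * ‖L x₀ - (y + ζ • v)‖ := h2
        _ ≤ C * δ := mul_le_mul_of_nonneg_left hclose hC.le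
    have h4 : ‖F ζ‖ ≤ ‖Q fun _ => x₀‖ + ‖F ζ - Q fun _ => x₀‖ := by
      have := norm_add_le (Q fun _ => x₀) (F ζ - Q fun _ => x₀)
      rwa [add_sub_cancel] at this
    linarith
  obtain ⟨x, f, hx, hf, hfx, hmain⟩ := h Q x₀ hζ1.le (ε / 2) (by linarith)
  obtain ⟨e1, e2, e3⟩ := pull t₀ L hL1 hLt x f hx hf hfx
  refine ⟨_, _, e1, e2, e3, ?_⟩
  have h5 : (f.comp (ContinuousMap.evalCLM ℂ t₀ : C(K, X) →L[ℂ] X)) (A fun _ => L x) =
      f (Q fun _ => x) := rfl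
  rw [h5]
  have h6 : c * (‖A fun _ => y‖ - C * δ) ≤ c * ‖Q fun _ => x₀‖ :=
    mul_le_mul_of_nonneg_left hQ₀ hc
  have h7 : c * ‖A fun _ => y‖ - ε ≤ c * ‖Q fun _ => x₀‖ - ε / 2 := by nlinarith
  exact lt_of_le_of_lt h7 hmain

end Pool.Agent.Q96.PN
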